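import Pool.Agent.Q198.HG.Rho

/-!
# Project HG, job HG3

Triangular matrices and weights: `low`, `zero`, `part`.
-/

set_option autoImplicit false
set_option linter.all false

open Matrix Finset


namespace Pool.Agent.Q198.HG

open Q207.HG

section

variable {K : Type} [Fintype K] [DecidableEq K] {r : ℕ}

theorem rho_add (M M' : Matrix K K ℂ) : rho (r := r) (M + M') = rho M + rho M' := by
  refine LinearMap.ext fun u => funext fun p => ?_
  rw [LinearMap.add_apply, Pi.add_apply, rho_eq, rho_eq, rho_eq, ← sum_add_distrib]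
  refine sum_congr rfl fun l _ => ?_
  unfold Rl
  rw [← sum_add_distrib]
  refine sum_congr rfl fun x _ => ?_
  rw [Matrix.add_apply]
  ring

theorem rho_smul (c : ℂ) (M : Matrix K K ℂ) : rho (r := r) (c • M) = c • rho M := by
  refine LinearMap.ext fun u => funext fun p => ?_
  rw [LinearMap.smul_apply, Pi.smul_apply, rho_eq, rho_eq, smul_eq_mul, mul_sum]
  refine sum_congr rfl fun l _ => ?_
  unfold Rl
  rw [mul_sum]
  refine sum_congr rfl fun x _ => ?_
  rw [Matrix.smul_apply, smul_eq_mul]
  ring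

theorem rho_zero : rho (r := r) (0 : Matrix K K ℂ) = 0 := by
  have := rho_smul (r := r) (0 : ℂ) (0 : Matrix K K ℂ)
  rwa [zero_smul, zero_smul] at this

/-- the action of a triangular matrix at `p`, when the function vanishes at all smaller weights -/
theorem rho_low {w : K → ℤ} {M : Matrix K K ℂ} (hM : Low w M) (u : (Fin r → K) → ℂ) (p : Fin r → K)
    (hu : ∀ p', ∑ l, w (p' l) < ∑ l, w (p l) → u p' = 0) :
    rho M u p = ((∑ l, w (p l) : ℤ) : ℂ) * u p := by
  rw [rho_eq]
  have h1 : ∀ l, Rl l M u p = (w (p l) : ℂ) * u p := by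
    intro l
    unfold Rl
    rw [sum_eq_single (p l)]
    · rw [Function.update_eq_self, hM _ _ le_rfl, if_pos rfl]
    · intro x _ hx
      by_cases h : w (p l) ≤ w x
      · rw [hM _ _ h, if_neg (Ne.symm hx), zero_mul]
      · rw [hu, mul_zero]
        push Not at h
        rw [← add_sum_erase univ (fun m => w (Function.update p l x m)) (mem_univ l),
          ← add_sum_erase univ (fun m => w (p m)) (mem_univ l), Function.update_self]
        have : ∑ m ∈ univ.erase l, w (Function.update p l x m) = ∑ m ∈ univ.erase l, w (p m) := by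
          refine sum_congr rfl fun m hm => ?_
          rw [Function.update_of_ne (ne_of_mem_erase hm)]
        rw [this]
        linarith
    · intro h
      exact absurd (mem_univ _) h
  rw [sum_congr rfl fun l _ => h1 l, ← sum_mul]
  push_cast
  rfl

end

theorem low : S_Low := by
  intro K _ _ r w M hM u hu
  have key : ∀ n : ℕ, ∀ p : Fin r → K, ∑ l, w (p l) < 0 →
      (univ.filter fun p' : Fin r → K => ∑ l, w (p' l) < ∑ l, w (p l)).card ≤ n → u p = 0 := by
    intro n
    induction n with
    | zero =>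
      intro p hp hn
      have h1 : ∀ p', ∑ l, w (p' l) < ∑ l, w (p l) → u p' = 0 := by
        intro p' hp'
        have : (univ.filter fun p' : Fin r → K => ∑ l, w (p' l) < ∑ l, w (p l)) = ∅ :=
          card_eq_zero.1 (Nat.le_zero.1 hn)
        have h7 : p' ∈ (univ.filter fun p' : Fin r → K => ∑ l, w (p' l) < ∑ l, w (p l)) :=
          mem_filter.2 ⟨mem_univ _, hp'⟩
        rw [this] at h7
        exact absurd h7 (notMem_empty _)
      have h2 := rho_low hM u p h1
      rw [hu, Pi.zero_apply] at h2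
      rcases mul_eq_zero.1 h2.symm with h3 | h3
      · have h4 : (∑ l, w (p l)) = 0 := by exact_mod_cast h3
        omega
      · exact h3
    | succ n ih =>
      intro p hp hn
      have h1 : ∀ p', ∑ l, w (p' l) < ∑ l, w (p l) → u p' = 0 := by
        intro p' hp'
        refine ih p' (hp'.trans hp) ?_
        have h5 : (univ.filter fun q : Fin r → K => ∑ l, w (q l) < ∑ l, w (p' l)) ⊂
            (univ.filter fun q : Fin r → K => ∑ l, w (q l) < ∑ l, w (p l)) := by
          rw [Finset.ssubset_iff_of_subset]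
          · exact ⟨p', mem_filter.2 ⟨mem_univ _, hp'⟩, fun h => lt_irrefl _ (mem_filter.1 h).2⟩
          · intro q hq
            exact mem_filter.2 ⟨mem_univ _, (mem_filter.1 hq).2.trans hp'⟩
        have := card_lt_card h5
        omega
      have h2 := rho_low hM u p h1
      rw [hu, Pi.zero_apply] at h2
      rcases mul_eq_zero.1 h2.symm with h3 | h3
      · have h4 : (∑ l, w (p l)) = 0 := by exact_mod_cast h3
        omega
      · exact h3
  intro p hp
  exact key _ p hp le_rfl

/-- the trace on a stable subspace of a combination of commutators is zero -/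
theorem trace_comm {K : Type} [Fintype K] [DecidableEq K] {r : ℕ} {M : Matrix K K ℂ}
    (U : Submodule ℂ ((Fin r → K) → ℂ)) (𝓛 : Set (Matrix K K ℂ)) (h𝓛 : ∀ X ∈ 𝓛, ∀ u ∈ U, rho X u ∈ U)
    (hM : M ∈ Submodule.span ℂ {Z | ∃ X ∈ 𝓛, ∃ Y ∈ 𝓛, Z = X * Y - Y * X}) :
    ∃ h : ∀ u ∈ U, rho M u ∈ U, LinearMap.trace ℂ U ((rho M).restrict h) = 0 := by
  induction hM using Submodule.span_induction with
  | mem Z hZ =>
    obtain ⟨X, hX, Y, hY, rfl⟩ := hZ
    have h1 : ∀ u ∈ U, rho (X * Y - Y * X) u ∈ U := by
      intro u hu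
      rw [hom K r X Y]
      exact U.sub_mem (h𝓛 X hX _ (h𝓛 Y hY u hu)) (h𝓛 Y hY _ (h𝓛 X hX u hu))
    refine ⟨h1, ?_⟩
    have h2 : (rho (X * Y - Y * X)).restrict h1 =
        (rho X).restrict (h𝓛 X hX) * (rho Y).restrict (h𝓛 Y hY) -
        (rho Y).restrict (h𝓛 Y hY) * (rho X).restrict (h𝓛 X hX) := by
      refine LinearMap.ext fun u => Subtype.ext ?_
      show rho (X * Y - Y * X) u.1 = rho X (rho Y u.1) - rho Y (rho X u.1)
      rw [hom K r X Y]
      rfl
    rw [h2]
    refine (map_sub (LinearMap.trace ℂ U) _ _).trans ?_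
    rw [LinearMap.trace_mul_comm, sub_self]
  | zero =>
    have h1 : ∀ u ∈ U, rho (r := r) (0 : Matrix K K ℂ) u ∈ U := by
      intro u hu
      rw [rho_zero]
      exact U.zero_mem
    refine ⟨h1, ?_⟩
    have h2 : (rho (r := r) (0 : Matrix K K ℂ)).restrict h1 = 0 := by
      refine LinearMap.ext fun u => Subtype.ext ?_
      show rho (r := r) (0 : Matrix K K ℂ) u.1 = 0
      rw [rho_zero]
      rfl
    rw [h2, map_zero]
  | add X Y _ _ hX hY =>
    obtain ⟨hX1, hX2⟩ := hX
    obtain ⟨hY1, hY2⟩ := hY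
    have h1 : ∀ u ∈ U, rho (r := r) (X + Y) u ∈ U := by
      intro u hu
      rw [rho_add]
      exact U.add_mem (hX1 u hu) (hY1 u hu)
    refine ⟨h1, ?_⟩
    have h2 : (rho (r := r) (X + Y)).restrict h1 = (rho X).restrict hX1 + (rho Y).restrict hY1 := by
      refine LinearMap.ext fun u => Subtype.ext ?_
      show rho (r := r) (X + Y) u.1 = rho X u.1 + rho Y u.1
      rw [rho_add]
      rfl
    rw [h2, map_add, hX2, hY2, add_zero]
  | smul c X _ hX =>
    obtain ⟨hX1, hX2⟩ := hX
    have h1 : ∀ u ∈ U, rho (r := r) (c • X) u ∈ U := by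
      intro u hu
      rw [rho_smul]
      exact U.smul_mem c (hX1 u hu)
    refine ⟨h1, ?_⟩
    have h2 : (rho (r := r) (c • X)).restrict h1 = c • (rho X).restrict hX1 := by
      refine LinearMap.ext fun u => Subtype.ext ?_
      show rho (r := r) (c • X) u.1 = c • rho X u.1
      rw [rho_smul]
      rfl
    rw [h2, map_smul, hX2, smul_zero]

theorem zero : S_Zero := by
  intro K _ _ r w M hM U hU 𝓛 h𝓛 hspan
  obtain ⟨hst, htr⟩ := trace_comm U 𝓛 h𝓛 hspan
  set E : Module.End ℂ U := (rho M).restrict hst with hE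
  -- the eigenvalues are weights, hence natural numbers
  have heig : ∀ z : ℂ, E.HasEigenvalue z → ∃ n : ℕ, z = n := by
    intro z hz
    obtain ⟨v, hv⟩ := hz.exists_hasEigenvector
    have hv1 : rho M v.1 = z • v.1 := congrArg Subtype.val hv.apply_eq_smul
    have hv0 : v.1 ≠ 0 := fun h => hv.2 (Subtype.ext h)
    have hne : (univ.filter fun p : Fin r → K => v.1 p ≠ 0).Nonempty := by
      by_contra hemp
      apply hv0
      funext p
      by_contra hp
      exact hemp ⟨p, mem_filter.2 ⟨mem_univ _, hp⟩⟩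
    obtain ⟨p, hp, hmin⟩ := exists_min_image _ (fun p : Fin r → K => ∑ l, w (p l)) hne
    have hp0 := (mem_filter.1 hp).2
    have h1 := rho_low hM v.1 p (fun p' hp' => by
      by_contra h
      exact absurd (hmin p' (mem_filter.2 ⟨mem_univ _, h⟩)) (not_le.2 hp'))
    rw [hv1, Pi.smul_apply, smul_eq_mul] at h1
    have h2 : z = ((∑ l, w (p l) : ℤ) : ℂ) := mul_right_cancel₀ hp0 h1
    have h3 : 0 ≤ ∑ l, w (p l) := by
      by_contra h
      exact hp0 (hU v.1 v.2 p (not_le.1 h))
    refine ⟨(∑ l, w (p l)).toNat, ?_⟩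
    rw [h2]
    have h4 : (((∑ l, w (p l)).toNat : ℤ) : ℂ) = ((∑ l, w (p l) : ℤ) : ℂ) := by
      rw [Int.toNat_of_nonneg h3]
    rw [← h4]
    push_cast
    rfl
  have hroots : (LinearMap.charpoly E).roots.sum = 0 := by
    rw [← Module.End.trace_eq_sum_roots_charpoly_of_splits (IsAlgClosed.splits _)]
    exact htr
  have hz : ∀ z : ℂ, E.HasEigenvalue z → z = 0 := by
    have hm : ∀ z ∈ (LinearMap.charpoly E).roots, ∃ n : ℕ, z = n := by
      intro z hz
      exact heig z ((Module.End.hasEigenvalue_iff_isRoot_charpoly E z).2 (Polynomial.isRoot_of_mem_roots hz))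
    have hsum : ∀ s : Multiset ℂ, (∀ z ∈ s, ∃ n : ℕ, z = n) → s.sum = 0 → ∀ z ∈ s, z = 0 := by
      intro s hs h0 z hz
      have hre : ∀ z ∈ s.map Complex.re, 0 ≤ z := by
        intro y hy
        obtain ⟨x, hx, rfl⟩ := Multiset.mem_map.1 hy
        obtain ⟨n, hn⟩ := hs x hx
        rw [hn, Complex.natCast_re]
        positivity
      have hsre : (s.map Complex.re).sum = 0 := by
        have : (s.map Complex.re).sum = Complex.reAddGroupHom s.sum := by
          rw [map_multiset_sum]
          rfl
        rw [this, h0, map_zero]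
      have h1 := Multiset.all_zero_of_le_zero_le_of_sum_eq_zero hre hsre _ (Multiset.mem_map_of_mem _ hz)
      obtain ⟨n, hn⟩ := hs z hz
      rw [hn, Complex.natCast_re] at h1
      rw [hn]
      exact_mod_cast h1
    intro z hz
    refine hsum _ hm hroots z ?_
    rw [Polynomial.mem_roots (LinearMap.charpoly_monic E).ne_zero]
    exact (Module.End.hasEigenvalue_iff_isRoot_charpoly E z).1 hz
  -- descending induction on the weights of the support
  have hB : ∃ B : ℕ, ∀ p : Fin r → K, ∑ l, w (p l) ≤ B := by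
    refine ⟨∑ p : Fin r → K, (∑ l, w (p l)).toNat, fun p => ?_⟩
    have h1 : (∑ l, w (p l)).toNat ≤ ∑ p : Fin r → K, (∑ l, w (p l)).toNat :=
      single_le_sum (f := fun p : Fin r → K => (∑ l, w (p l)).toNat) (fun _ _ => Nat.zero_le _) (mem_univ p)
    exact (Int.self_le_toNat _).trans (by exact_mod_cast h1)
  obtain ⟨B, hB⟩ := hB
  have key : ∀ n : ℕ, ∀ m : ℤ, 1 ≤ m → (B : ℤ) + 1 ≤ m + n → ∀ v ∈ U,
      (∀ p : Fin r → K, ∑ l, w (p l) < m → v p = 0) → v = 0 := by
    intro n
    induction n with
    | zero =>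
      intro m _ hmB v _ hv
      funext p
      refine hv p ?_
      have := hB p
      push_cast at hmB
      omega
    | succ n ih =>
      intro m hm hmB v hvU hv
      have h1 : rho M v - (m : ℂ) • v ∈ U := U.sub_mem (hst v hvU) (U.smul_mem _ hvU)
      have h2 : rho M v - (m : ℂ) • v = 0 := by
        refine ih (m + 1) (by omega) (by push_cast at hmB; omega) _ h1 fun p hp => ?_
        rw [Pi.sub_apply, Pi.smul_apply, smul_eq_mul, rho_low hM v p (fun p' hp' => hv p' (by omega))]
        rcases lt_or_eq_of_le (Int.lt_add_one_iff.1 hp) with h3 | h3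
        · rw [hv p h3, mul_zero, mul_zero, sub_zero]
        · rw [h3, sub_self]
      by_contra hv0
      have h3 : E.HasEigenvalue (m : ℂ) := by
        refine Module.End.hasEigenvalue_of_hasEigenvector (x := ⟨v, hvU⟩) ?_
        rw [Module.End.hasEigenvector_iff, Module.End.mem_eigenspace_iff]
        refine ⟨Subtype.ext ?_, fun h => hv0 (congrArg Subtype.val h)⟩
        show rho M v = (m : ℂ) • v
        exact sub_eq_zero.1 h2
      have h4 := hz _ h3
      have h5 : m = 0 := by exact_mod_cast h4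
      omega
  intro u hu
  refine key B 1 le_rfl (by omega) _ (hst u hu) fun p hp => ?_
  have h1 : ∀ p' : Fin r → K, ∑ l, w (p' l) < 0 → u p' = 0 := fun p' hp' => hU u hu p' hp'
  rw [rho_low hM u p (fun p' hp' => h1 p' (by omega))]
  rcases lt_or_eq_of_le (Int.lt_add_one_iff.1 (by simpa using hp) : ∑ l, w (p l) ≤ 0) with h3 | h3
  · rw [h1 p h3, mul_zero]
  · rw [h3]
    simp

theorem part : S_Part := by
  intro K _ _ w M hM L hL f g hf hg hfg
  have hB : ∃ B : ℕ, ∀ x : K, w x ≤ B := by
    refine ⟨∑ x : K, (w x).toNat, fun x => ?_⟩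
    have h1 : (w x).toNat ≤ ∑ x : K, (w x).toNat :=
      single_le_sum (f := fun x : K => (w x).toNat) (fun _ _ => Nat.zero_le _) (mem_univ x)
    exact (Int.self_le_toNat _).trans (by exact_mod_cast h1)
  obtain ⟨B, hB⟩ := hB
  have key : ∀ n : ℕ, ∀ m : ℤ, 1 ≤ m → (B : ℤ) + 1 ≤ m + n → ∀ f g : K → ℂ, M *ᵥ f = 0 →
      (∀ x, w x < m → g x = 0) → f + g ∈ L → f ∈ L := by
    intro n
    induction n with
    | zero =>
      intro m _ hmB f g _ hg hfg
      have : g = 0 := by
        funext x
        refine hg x ?_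
        have := hB x
        push_cast at hmB
        omega
      rwa [this, add_zero] at hfg
    | succ n ih =>
      intro m hm hmB f g hf hg hfg
      have h1 : (-(m : ℂ)) • f + (M *ᵥ g - (m : ℂ) • g) ∈ L := by
        have h2 := L.sub_mem (hL _ hfg) (L.smul_mem (m : ℂ) hfg)
        rw [Matrix.mulVec_add, hf, zero_add, smul_add] at h2
        have h3 : (-(m : ℂ)) • f + (M *ᵥ g - (m : ℂ) • g) = M *ᵥ g - ((m : ℂ) • f + (m : ℂ) • g) := by
          rw [neg_smul]
          abel
        rw [h3]
        exact h2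
      have h4 := ih (m + 1) (by omega) (by push_cast at hmB; omega) ((-(m : ℂ)) • f) (M *ᵥ g - (m : ℂ) • g)
        (by rw [Matrix.mulVec_smul, hf, smul_zero]) (fun x hx => by
          rw [Pi.sub_apply, Pi.smul_apply, smul_eq_mul]
          have h5 : (M *ᵥ g) x = M x x * g x := by
            show ∑ y, M x y * g y = _
            refine sum_eq_single x (fun y _ hy => ?_) (fun h => absurd (mem_univ _) h)
            by_cases h : w y < m
            · rw [hg y h, mul_zero]
            · rw [hM x y (by omega), if_neg (Ne.symm hy), zero_mul]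
          rw [h5, hM x x le_rfl, if_pos rfl]
          rcases lt_or_eq_of_le (Int.lt_add_one_iff.1 hx) with h3 | h3
          · rw [hg x h3, mul_zero, mul_zero, sub_zero]
          · rw [h3, sub_self]) h1
      have hm0 : (-(m : ℂ)) ≠ 0 := by
        rw [neg_ne_zero]
        have : m ≠ 0 := by omega
        exact_mod_cast this
      have h6 := L.smul_mem (-(m : ℂ))⁻¹ h4
      rwa [smul_smul, inv_mul_cancel₀ hm0, one_smul] at h6
  exact key B 1 le_rfl (by omega) f g hf (fun x hx => hg x (by omega)) hfg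

end Pool.Agent.Q198.HG
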