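import Pool.Agent.Q207.HG.Stm

/-!
# Project HG, job HG1a: the derivation `rho` attached to a matrix

`rho` is a Lie homomorphism (`hom`), and the derivative of the minors when the span of the rows is stable is the trace (`tr`).
-/

set_option autoImplicit false
set_option linter.all false

open Matrix Finset

namespace Pool.Agent.Q198.HG

open Q207.HG

section

variable {K : Type} [Fintype K] [DecidableEq K] {r : ℕ}

/-- the action in one slot -/
noncomputable def Rl (l : Fin r) (M : Matrix K K ℂ) (u : (Fin r → K) → ℂ) (p : Fin r → K) : ℂ :=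
  ∑ x, M (p l) x * u (Function.update p l x)

theorem Rl_sub (l : Fin r) (M M' : Matrix K K ℂ) (u : (Fin r → K) → ℂ) (p : Fin r → K) :
    Rl l (M - M') u p = Rl l M u p - Rl l M' u p := by
  unfold Rl
  rw [← sum_sub_distrib]
  refine sum_congr rfl fun x _ => ?_
  rw [Matrix.sub_apply]
  ring

theorem Rl_mul (l : Fin r) (M M' : Matrix K K ℂ) (u : (Fin r → K) → ℂ) (p : Fin r → K) :
    Rl l (M * M') u p = Rl l M (Rl l M' u) p := by
  unfold Rl
  simp only [Matrix.mul_apply, sum_mul, mul_sum, Function.update_self, Function.update_idem]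
  rw [sum_comm]
  refine sum_congr rfl fun x _ => sum_congr rfl fun y _ => ?_
  ring

theorem Rl_comm {l m : Fin r} (h : l ≠ m) (M M' : Matrix K K ℂ) (u : (Fin r → K) → ℂ) (p : Fin r → K) :
    Rl l M (Rl m M' u) p = Rl m M' (Rl l M u) p := by
  unfold Rl
  simp only [mul_sum, Function.update_of_ne h, Function.update_of_ne h.symm]
  rw [sum_comm]
  refine sum_congr rfl fun x _ => sum_congr rfl fun y _ => ?_
  rw [Function.update_comm h]
  ring

theorem rho_eq (M : Matrix K K ℂ) (u : (Fin r → K) → ℂ) (p : Fin r → K) :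
    rho M u p = ∑ l, Rl l M u p := rfl

theorem rho_rho (M M' : Matrix K K ℂ) (u : (Fin r → K) → ℂ) (p : Fin r → K) :
    rho M (rho M' u) p = ∑ l, ∑ m, Rl l M (Rl m M' u) p := by
  rw [rho_eq]
  refine sum_congr rfl fun l _ => ?_
  have h1 : Rl l M (rho M' u) p = ∑ x, M (p l) x * ∑ m, Rl m M' u (Function.update p l x) := rfl
  rw [h1]
  simp only [mul_sum]
  rw [sum_comm]
  refine sum_congr rfl fun m _ => ?_
  rfl

end

theorem hom : S_Hom := by
  intro K _ _ r M M'
  refine LinearMap.ext fun u => funext fun p => ?_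
  rw [LinearMap.sub_apply, Module.End.mul_apply, Module.End.mul_apply, Pi.sub_apply, rho_rho, rho_rho, rho_eq]
  rw [sum_comm (f := fun l m => Rl l M' (Rl m M u) p), ← sum_sub_distrib]
  refine sum_congr rfl fun l _ => ?_
  rw [← sum_sub_distrib, sum_eq_single l]
  · rw [Rl_sub, Rl_mul, Rl_mul]
  · intro m _ hm
    rw [Rl_comm hm, sub_self]
  · intro h
    exact absurd (mem_univ _) h

theorem tr : S_Tr := by
  intro K _ _ r M A c h
  funext p
  rw [rho_eq, Pi.smul_apply, smul_eq_mul]
  set N : Matrix (Fin r) (Fin r) ℂ := Matrix.of fun s l => A s (p l) with hN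
  have h1 : ∀ l, Rl l M (Dt A) p = N.cramer (fun s => (c * N) s l) l := by
    intro l
    have h2 : (fun s => (c * N) s l) = ∑ x, M (p l) x • fun s => A s x := by
      funext s
      rw [Finset.sum_apply]
      simp only [Pi.smul_apply, smul_eq_mul]
      have := congrFun (h s) (p l)
      rw [Finset.sum_apply] at this
      simp only [Pi.smul_apply, smul_eq_mul] at this
      rw [Matrix.mul_apply]
      simp only [hN, Matrix.of_apply]
      rw [← this]
      rfl
    rw [h2, map_sum, Finset.sum_apply]
    unfold Rl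
    refine sum_congr rfl fun x _ => ?_
    rw [map_smul, Pi.smul_apply, smul_eq_mul, Matrix.cramer_apply]
    congr 1
    unfold Dt
    congr 1
    ext s m
    rw [Matrix.of_apply, Matrix.updateCol_apply]
    by_cases hm : m = l
    · subst hm
      rw [if_pos rfl, Function.update_self]
    · rw [if_neg hm, Function.update_of_ne hm]
      rfl
  rw [sum_congr rfl fun l _ => h1 l]
  have h3 : ∀ l, N.cramer (fun s => (c * N) s l) l = (N.adjugate * (c * N)) l l := by
    intro l
    rw [Matrix.cramer_eq_adjugate_mulVec]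
    rfl
  rw [sum_congr rfl fun l _ => h3 l]
  have h4 : ∑ l, (N.adjugate * (c * N)) l l = (N.adjugate * (c * N)).trace := rfl
  rw [h4, Matrix.trace_mul_comm, Matrix.mul_assoc, Matrix.mul_adjugate, Matrix.mul_smul, Matrix.mul_one,
    Matrix.trace_smul, smul_eq_mul, mul_comm]
  rfl

end Pool.Agent.Q198.HG
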