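import Pool.Agent.Q198.HG.Rho

/-!
# Project HG, jobs HG1b and HG2

The derivative of the minors along a curve (`der`), and the stability of the span of the rows (`span`).
-/

set_option autoImplicit false
set_option linter.all false

open Matrix Finset


namespace Pool.Agent.Q198.HG

open Q207.HG

section

variable {K : Type} [Fintype K] [DecidableEq K] {r : ℕ}

/-- the action in one slot on the minors, as a determinant -/
theorem Rl_Dt (l : Fin r) (M : Matrix K K ℂ) (A : Fin r → K → ℂ) (p : Fin r → K) :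
    Rl l M (Dt A) p = (Matrix.of fun s m => A s (p m)).cramer (fun s => (M *ᵥ A s) (p l)) l := by
  have h2 : (fun s => (M *ᵥ A s) (p l)) = ∑ x, M (p l) x • fun s => A s x := by
    funext s
    rw [Finset.sum_apply]
    rfl
  rw [h2, map_sum, Finset.sum_apply]
  unfold Rl
  refine sum_congr rfl fun x _ => ?_
  rw [map_smul, Pi.smul_apply, smul_eq_mul, Matrix.cramer_apply]
  congr 1
  unfold Dt
  congr 1
  ext s m
  rw [Matrix.of_apply, Matrix.updateCol_apply]
  by_cases hm : m = l
  · subst hm
    rw [if_pos rfl, Function.update_self]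
  · rw [if_neg hm, Function.update_of_ne hm]
    rfl

theorem rho_Dt (M : Matrix K K ℂ) (A : Fin r → K → ℂ) (c : Matrix (Fin r) (Fin r) ℂ) (p : Fin r → K) :
    rho M (Dt A) p = c.trace * Dt A p +
      ∑ l, (Matrix.of fun s m => A s (p m)).cramer
        (fun s => (M *ᵥ A s) (p l) - ∑ t, c s t * A t (p l)) l := by
  set N : Matrix (Fin r) (Fin r) ℂ := Matrix.of fun s m => A s (p m) with hN
  have h1 : ∀ l, N.cramer (fun s => (M *ᵥ A s) (p l)) l = (N.adjugate * (c * N)) l l +
      N.cramer (fun s => (M *ᵥ A s) (p l) - ∑ t, c s t * A t (p l)) l := by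
    intro l
    have h3 : N.cramer (fun s => (c * N) s l) l = (N.adjugate * (c * N)) l l := by
      rw [Matrix.cramer_eq_adjugate_mulVec]
      rfl
    have h5 : (fun s => (M *ᵥ A s) (p l)) = (fun s => (c * N) s l) +
        fun s => (M *ᵥ A s) (p l) - ∑ t, c s t * A t (p l) := by
      funext s
      rw [Pi.add_apply, Matrix.mul_apply]
      simp only [hN, Matrix.of_apply]
      ring
    rw [← h3, ← Pi.add_apply, ← map_add, ← h5]
  rw [rho_eq, sum_congr rfl fun l _ => (Rl_Dt l M A p).trans (h1 l), sum_add_distrib]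
  congr 1
  have h4 : ∑ l, (N.adjugate * (c * N)) l l = (N.adjugate * (c * N)).trace := rfl
  rw [h4, Matrix.trace_mul_comm, Matrix.mul_assoc, Matrix.mul_adjugate, Matrix.mul_smul, Matrix.mul_one,
    Matrix.trace_smul, smul_eq_mul, mul_comm]
  rfl

end

theorem der : S_Der := by
  intro K _ _ r M B hB p
  have h0 : ∀ z, Dt (B z) p = ∑ σ : Equiv.Perm (Fin r), (Equiv.Perm.sign σ : ℂ) * ∏ i, B z (σ i) (p i) := by
    intro z
    unfold Dt
    rw [Matrix.det_apply']
    rfl
  have h1 : ∀ σ : Equiv.Perm (Fin r), HasDerivAt (fun z => (Equiv.Perm.sign σ : ℂ) * ∏ i, B z (σ i) (p i))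
      ((Equiv.Perm.sign σ : ℂ) * ∑ i, (∏ j ∈ univ.erase i, B 0 (σ j) (p j)) * (M *ᵥ B 0 (σ i)) (p i)) 0 := by
    intro σ
    refine HasDerivAt.const_mul _ ?_
    have := HasDerivAt.fun_finset_prod (u := univ) (f := fun i z => B z (σ i) (p i))
      (f' := fun i => (M *ᵥ B 0 (σ i)) (p i)) (x := 0) (fun i _ => hB (σ i) (p i))
    simpa only [smul_eq_mul] using this
  have h2 := HasDerivAt.fun_sum (u := univ) fun σ (_ : σ ∈ univ) => h1 σ
  have h3 : (fun z => Dt (B z) p) = fun z => ∑ σ : Equiv.Perm (Fin r),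
      (Equiv.Perm.sign σ : ℂ) * ∏ i, B z (σ i) (p i) := funext h0
  rw [h3]
  refine h2.congr_deriv ?_
  have h4 : rho M (Dt (B 0)) p = ∑ l, ∑ x, M (p l) x * ∑ σ : Equiv.Perm (Fin r), (Equiv.Perm.sign σ : ℂ) *
      ((∏ j ∈ univ.erase l, B 0 (σ j) (p j)) * B 0 (σ l) x) := by
    rw [rho_eq]
    refine sum_congr rfl fun l _ => ?_
    unfold Rl
    refine sum_congr rfl fun x _ => ?_
    unfold Dt
    rw [Matrix.det_apply']
    congr 1
    refine sum_congr rfl fun σ _ => ?_
    congr 1
    rw [← mul_prod_erase univ _ (mem_univ l), mul_comm]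
    congr 1
    · refine prod_congr rfl fun j hj => ?_
      rw [Matrix.of_apply, Function.update_of_ne (ne_of_mem_erase hj)]
    · rw [Matrix.of_apply, Function.update_self]
  rw [h4]
  have h5 : ∀ l, ∑ x, M (p l) x * ∑ σ : Equiv.Perm (Fin r), (Equiv.Perm.sign σ : ℂ) *
      ((∏ j ∈ univ.erase l, B 0 (σ j) (p j)) * B 0 (σ l) x) =
      ∑ σ : Equiv.Perm (Fin r), (Equiv.Perm.sign σ : ℂ) *
      ((∏ j ∈ univ.erase l, B 0 (σ j) (p j)) * (M *ᵥ B 0 (σ l)) (p l)) := by
    intro l
    simp only [mul_sum]
    rw [sum_comm]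
    refine sum_congr rfl fun σ _ => ?_
    have h6 : (M *ᵥ B 0 (σ l)) (p l) = ∑ x, M (p l) x * B 0 (σ l) x := rfl
    rw [h6, mul_sum, mul_sum]
    refine sum_congr rfl fun x _ => ?_
    ring
  rw [sum_congr rfl fun l _ => h5 l, sum_comm]
  refine sum_congr rfl fun σ _ => ?_
  rw [mul_sum]

/-- linearly independent rows have a non-zero minor of maximal size -/
theorem exists_minor {K : Type} [Fintype K] [DecidableEq K] {r : ℕ} (A : Fin r → K → ℂ)
    (hA : LinearIndependent ℂ A) : ∃ p : Fin r → K, Dt A p ≠ 0 := by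
  set v : K → (Fin r → ℂ) := fun x s => A s x with hv
  have htop : Submodule.span ℂ (Set.range v) = ⊤ := by
    by_contra hne
    obtain ⟨f, hf0, hf⟩ := Submodule.exists_le_ker_of_lt_top _ (lt_top_iff_ne_top.2 hne)
    apply hf0
    have h1 : ∀ x, f (v x) = 0 := fun x => LinearMap.mem_ker.1 (hf (Submodule.subset_span ⟨x, rfl⟩))
    have h2 : ∀ w : Fin r → ℂ, f w = ∑ s, w s * f (Pi.single s 1) := by
      intro w
      conv_lhs => rw [← Finset.univ_sum_single w]
      rw [map_sum]
      refine sum_congr rfl fun s _ => ?_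
      have : (Pi.single s (w s) : Fin r → ℂ) = w s • Pi.single s 1 := by
        rw [← Pi.single_smul, smul_eq_mul, mul_one]
      rw [this, map_smul, smul_eq_mul]
    have h3 : ∑ s, f (Pi.single s 1) • A s = 0 := by
      funext x
      rw [Finset.sum_apply]
      have := h1 x
      rw [h2] at this
      simpa [hv, mul_comm] using this
    have h4 := Fintype.linearIndependent_iff.1 hA _ h3
    refine LinearMap.ext fun w => ?_
    rw [h2]
    simp [h4]
  obtain ⟨κ, a, hinj, hspan, hli⟩ := exists_linearIndependent' ℂ v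
  rw [htop] at hspan
  haveI : Finite κ := Finite.of_injective a hinj
  haveI := Fintype.ofFinite κ
  let b := Module.Basis.mk hli hspan.ge
  have hcard : Fintype.card κ = r := by
    have h1 := Module.finrank_eq_card_basis b
    rw [Module.finrank_fin_fun] at h1
    exact h1.symm
  let e : Fin r ≃ κ := (Fintype.equivFinOfCardEq hcard).symm
  refine ⟨fun l => a (e l), ?_⟩
  have h1 : LinearIndependent ℂ (fun l : Fin r => v (a (e l))) := hli.comp e e.injective
  have h2 : IsUnit (Matrix.of fun s l => A s (a (e l)) : Matrix (Fin r) (Fin r) ℂ) :=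
    Matrix.linearIndependent_cols_iff_isUnit.1 h1
  unfold Dt
  exact ((Matrix.isUnit_iff_isUnit_det _).1 h2).ne_zero

theorem span : S_Span := by
  intro K _ _ r M A z hA hz
  obtain ⟨p0, hp0⟩ := exists_minor A hA
  set N0 : Matrix (Fin r) (Fin r) ℂ := Matrix.of fun s l => A s (p0 l) with hN0
  have hu : IsUnit N0.det := isUnit_iff_ne_zero.2 hp0
  set A' : Fin r → K → ℂ := fun s x => ∑ t, N0⁻¹ s t * A t x with hA'
  have hdel : ∀ s l, A' s (p0 l) = (1 : Matrix (Fin r) (Fin r) ℂ) s l := by
    intro s l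
    rw [← Matrix.nonsing_inv_mul _ hu, Matrix.mul_apply]
    rfl
  have hback : ∀ s, A s = ∑ t, N0 s t • A' t := by
    intro s
    funext x
    rw [Finset.sum_apply]
    simp only [Pi.smul_apply, smul_eq_mul, hA', mul_sum]
    rw [sum_comm]
    have h1 : ∀ t, ∑ u, N0 s u * (N0⁻¹ u t * A t x) = (1 : Matrix (Fin r) (Fin r) ℂ) s t * A t x := by
      intro t
      rw [← Matrix.mul_nonsing_inv _ hu, Matrix.mul_apply, sum_mul]
      refine sum_congr rfl fun u _ => ?_
      ring
    rw [sum_congr rfl fun t _ => h1 t]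
    simp [Matrix.one_apply]
  have hDt : Dt A' = N0⁻¹.det • Dt A := by
    funext p
    rw [Pi.smul_apply, smul_eq_mul]
    unfold Dt
    rw [← Matrix.det_mul]
    congr 1
  have hz' : rho M (Dt A') = z • Dt A' := by
    rw [hDt, map_smul, hz, smul_comm]
  set c : Matrix (Fin r) (Fin r) ℂ := Matrix.of fun s t => (M *ᵥ A' s) (p0 t) with hc
  set A2 : Fin r → K → ℂ := fun s x => (M *ᵥ A' s) x - ∑ t, c s t * A' t x with hA2
  have hA20 : ∀ s l, A2 s (p0 l) = 0 := by
    intro s l
    simp only [hA2, hdel, hc, Matrix.of_apply]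
    simp [Matrix.one_apply]
  have hmain : ∀ p, z * Dt A' p = c.trace * Dt A' p +
      ∑ l, (Matrix.of fun s m => A' s (p m)).cramer (fun s => A2 s (p l)) l := by
    intro p
    rw [← rho_Dt, hz']
    rfl
  have hDt0 : Dt A' p0 = 1 := by
    unfold Dt
    have : (Matrix.of fun s l => A' s (p0 l)) = (1 : Matrix (Fin r) (Fin r) ℂ) := by
      ext s l
      exact hdel s l
    rw [this, Matrix.det_one]
  have hztr : z = c.trace := by
    have h1 := hmain p0
    have h2 : ∀ l, (Matrix.of fun s m => A' s (p0 m)).cramer (fun s => A2 s (p0 l)) l = 0 := by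
      intro l
      have : (fun s => A2 s (p0 l)) = 0 := funext fun s => hA20 s l
      rw [this, map_zero, Pi.zero_apply]
    rw [sum_congr rfl fun l _ => h2 l, hDt0] at h1
    simpa using h1
  have hzero : ∀ s x, A2 s x = 0 := by
    intro s x
    have h1 := hmain (Function.update p0 s x)
    rw [← hztr] at h1
    have h2 : ∑ l, (Matrix.of fun t m => A' t (Function.update p0 s x m)).cramer
        (fun t => A2 t (Function.update p0 s x l)) l = A2 s x := by
      rw [sum_eq_single s]
      · rw [Function.update_self, Matrix.cramer_apply]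
        have h3 : (Matrix.of fun t m => A' t (Function.update p0 s x m)).updateCol s (fun t => A2 t x) =
            (1 : Matrix (Fin r) (Fin r) ℂ).updateCol s (fun t => A2 t x) := by
          ext t m
          rw [Matrix.updateCol_apply, Matrix.updateCol_apply]
          by_cases hm : m = s
          · rw [if_pos hm, if_pos hm]
          · rw [if_neg hm, if_neg hm, Matrix.of_apply, Function.update_of_ne hm, hdel]
        rw [h3, ← Matrix.cramer_apply, Matrix.cramer_one]
        rfl
      · intro l _ hl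
        have : (fun t => A2 t (Function.update p0 s x l)) = 0 := by
          funext t
          rw [Function.update_of_ne hl]
          exact hA20 t l
        rw [this, map_zero, Pi.zero_apply]
      · intro h
        exact absurd (mem_univ _) h
    rw [h2] at h1
    linear_combination -h1
  have hin : ∀ t, A' t ∈ Submodule.span ℂ (Set.range A) := by
    intro t
    have : A' t = ∑ u, N0⁻¹ t u • A u := by
      funext x
      rw [Finset.sum_apply]
      rfl
    rw [this]
    exact Submodule.sum_mem _ fun u _ => Submodule.smul_mem _ _ (Submodule.subset_span ⟨u, rfl⟩)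
  have hM : ∀ t, M *ᵥ A' t ∈ Submodule.span ℂ (Set.range A) := by
    intro t
    have : M *ᵥ A' t = ∑ u, c t u • A' u := by
      funext x
      rw [Finset.sum_apply]
      exact sub_eq_zero.1 (hzero t x)
    rw [this]
    exact Submodule.sum_mem _ fun u _ => Submodule.smul_mem _ _ (hin u)
  intro s
  rw [hback s, Matrix.mulVec_sum]
  refine Submodule.sum_mem _ fun t _ => ?_
  rw [Matrix.mulVec_smul]
  exact Submodule.smul_mem _ _ (hM t)

end Pool.Agent.Q198.HG
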