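import Pool.Agent.Q207.HG.Stm

/-!
# Project HG, jobs HG4 and HG5

The trace of `ad Φ` on a rational subspace (`trace`) and the grading operator in an adapted basis (`grd`).
-/

set_option autoImplicit false
set_option linter.all false

open Matrix Finset


namespace Pool.Agent.Q198.HG

open Q207.HG

/-- rational matrices which are linearly independent are linearly independent over the complex numbers -/
theorem li_rat {I : Type} [Fintype I] {r : ℕ} (X : Fin r → Matrix I I ℚ) (hX : LinearIndependent ℚ X)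
    (z : Fin r → ℂ) (hz : ∑ s, z s • (X s).map (algebraMap ℚ ℂ) = 0) : z = 0 := by
  let b := Module.Basis.ofVectorSpace ℚ ℂ
  funext s
  apply b.repr.injective
  rw [Pi.zero_apply, map_zero]
  ext i
  have h1 : ∑ s, (b.repr (z s) i) • X s = 0 := by
    ext a c
    have h2 := congrFun (congrFun hz a) c
    rw [Matrix.sum_apply] at h2
    simp only [Matrix.smul_apply, Matrix.map_apply, Matrix.zero_apply] at h2
    have h3 : ∀ s, z s • (algebraMap ℚ ℂ) (X s a c) = (X s a c) • z s := by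
      intro s
      rw [smul_eq_mul, Algebra.smul_def, mul_comm]
    rw [sum_congr rfl fun s _ => h3 s] at h2
    have h4 := congrArg (fun y => b.repr y i) h2
    simp only [map_sum, map_smul, map_zero, Finsupp.coe_finset_sum, Finset.sum_apply, Finsupp.smul_apply,
      smul_eq_mul, Finsupp.coe_zero, Pi.zero_apply] at h4
    rw [Matrix.sum_apply, Matrix.zero_apply]
    simp only [Matrix.smul_apply, smul_eq_mul]
    rw [← h4]
    exact sum_congr rfl fun s _ => mul_comm _ _
  exact Fintype.linearIndependent_iff.1 hX _ h1 s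

/-- the eigenvalues of the grading operator are integers -/
theorem eig_int {I : Type} [Fintype I] [DecidableEq I] (Φ : Matrix I I ℂ) (H : ℤ → Submodule ℂ (I → ℂ))
    (htop : (⨆ p, H p) = ⊤) (hH : ∀ p, ∀ v ∈ H p, v ᵥ* Φ = (p : ℂ) • v) (μ : ℂ) (w : I → ℂ) (hw0 : w ≠ 0)
    (hw : w ᵥ* Φ = μ • w) : ∃ n : ℤ, μ = n := by
  by_contra hcon
  push Not at hcon
  let T : Module.End ℂ (I → ℂ) := Matrix.vecMulLinear Φ
  have hT : ∀ v, T v = v ᵥ* Φ := fun v => rfl
  have h1 := Module.End.eigenspaces_iSupIndep T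
  have h2 := h1 μ
  have h3 : (⨆ (j : ℂ) (_ : j ≠ μ), T.eigenspace j) = ⊤ := by
    rw [eq_top_iff, ← htop]
    refine iSup_le fun p => ?_
    refine le_trans ?_ (le_iSup₂_of_le (p : ℂ) (fun h => hcon p h.symm) le_rfl)
    intro v hv
    rw [Module.End.mem_eigenspace_iff, hT]
    exact hH p v hv
  rw [h3, disjoint_top] at h2
  apply hw0
  have h4 : w ∈ T.eigenspace μ := by
    rw [Module.End.mem_eigenspace_iff, hT]
    exact hw
  rw [h2] at h4
  exact (Submodule.mem_bot ℂ).1 h4

theorem vec_ext {I : Type} [Fintype I] [DecidableEq I] (H : ℤ → Submodule ℂ (I → ℂ))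
    (htop : (⨆ p, H p) = ⊤) (A B : Matrix I I ℂ) (h : ∀ p, ∀ v ∈ H p, v ᵥ* A = v ᵥ* B) : A = B := by
  have h1 : ∀ v, v ᵥ* A = v ᵥ* B := by
    intro v
    have hv : v ∈ (⨆ p, H p) := by rw [htop]; trivial
    refine Submodule.iSup_induction H (motive := fun v => v ᵥ* A = v ᵥ* B) hv h ?_ ?_
    · rw [Matrix.zero_vecMul, Matrix.zero_vecMul]
    · intro x y hx hy
      rw [Matrix.add_vecMul, Matrix.add_vecMul, hx, hy]
  ext i j
  have h2 := congrFun (h1 (Pi.single i 1)) j
  rwa [Matrix.single_one_vecMul, Matrix.single_one_vecMul] at h2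

theorem trace : S_Trace := by
  intro I _ _ Φ H htop hH hconj r X hX c hc
  have hmap : ∀ s, ((X s).map (algebraMap ℚ ℂ)).map (starRingEnd ℂ) = (X s).map (algebraMap ℚ ℂ) := by
    intro s
    ext a b
    simp
  -- the conjugate of `Φ`
  have hΦ : Φ.map (starRingEnd ℂ) = -Φ := by
    refine vec_ext H htop _ _ fun p v hv => ?_
    have h1 := hH (-p) _ (hconj p v hv)
    funext j
    have h2 := congrArg (starRingEnd ℂ) (congrFun h1 j)
    rw [Matrix.vecMul_neg, hH p v hv]
    have h3 : (starRingEnd ℂ) (((fun a => (starRingEnd ℂ) (v a)) ᵥ* Φ) j) = (v ᵥ* Φ.map (starRingEnd ℂ)) j := by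
      simp only [Matrix.vecMul, dotProduct, map_sum, map_mul, Complex.conj_conj, Matrix.map_apply]
    rw [← h3, h2]
    simp
  have hcc : ∀ s t, (starRingEnd ℂ) (c s t) = -c s t := by
    intro s
    have h1 : ((X s).map (algebraMap ℚ ℂ) * Φ - Φ * (X s).map (algebraMap ℚ ℂ)).map (starRingEnd ℂ) =
        (∑ t, c s t • (X t).map (algebraMap ℚ ℂ)).map (starRingEnd ℂ) := by rw [hc s]
    rw [Matrix.map_sub _ (fun a b => map_sub (starRingEnd ℂ) a b), Matrix.map_mul, Matrix.map_mul, hmap, hΦ] at h1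
    have h2 : (∑ t, c s t • (X t).map (algebraMap ℚ ℂ)).map (starRingEnd ℂ) =
        ∑ t, (starRingEnd ℂ) (c s t) • (X t).map (algebraMap ℚ ℂ) := by
      ext a b
      rw [Matrix.map_apply, Matrix.sum_apply, Matrix.sum_apply, map_sum]
      refine sum_congr rfl fun t _ => ?_
      simp
    rw [h2, Matrix.mul_neg, Matrix.neg_mul] at h1
    have h3 : ∑ t, ((starRingEnd ℂ) (c s t) + c s t) • (X t).map (algebraMap ℚ ℂ) = 0 := by
      simp only [add_smul]
      rw [sum_add_distrib, ← h1, ← hc s]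
      abel
    have h4 := li_rat X hX _ h3
    intro t
    have h5 := congrFun h4 t
    simp only [Pi.zero_apply] at h5
    exact eq_neg_of_add_eq_zero_left h5
  have htr1 : (starRingEnd ℂ) c.trace = -c.trace := by
    unfold Matrix.trace
    rw [map_sum, ← sum_neg_distrib]
    exact sum_congr rfl fun s _ => hcc s s
  -- the eigenvalues of `c` are integers
  have heig : ∀ z ∈ c.charpoly.roots, ∃ n : ℤ, z = n := by
    intro z hz
    have h1 : c.charpoly.IsRoot z := Polynomial.isRoot_of_mem_roots hz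
    have h2 : (Matrix.scalar (Fin r) z - c).det = 0 := by
      rw [← Matrix.eval_charpoly]
      exact h1
    obtain ⟨u, hu0, hu⟩ := Matrix.exists_vecMul_eq_zero_iff.2 h2
    have h3 : u ᵥ* c = z • u := by
      rw [Matrix.vecMul_sub, sub_eq_zero] at hu
      rw [← hu]
      funext j
      simp [Matrix.scalar_apply, Matrix.vecMul_diagonal, mul_comm]
    set Y : Matrix I I ℂ := ∑ s, u s • (X s).map (algebraMap ℚ ℂ) with hY
    have hY0 : Y ≠ 0 := fun h => hu0 (li_rat X hX u h)
    have hYΦ : Y * Φ - Φ * Y = z • Y := by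
      rw [hY, Matrix.sum_mul, Matrix.mul_sum, ← sum_sub_distrib]
      have h4 : ∀ s, (u s • (X s).map (algebraMap ℚ ℂ)) * Φ - Φ * (u s • (X s).map (algebraMap ℚ ℂ)) =
          ∑ t, (u s * c s t) • (X t).map (algebraMap ℚ ℂ) := by
        intro s
        rw [Matrix.smul_mul, Matrix.mul_smul, ← smul_sub, hc s, smul_sum]
        exact sum_congr rfl fun t _ => smul_smul _ _ _
      rw [sum_congr rfl fun s _ => h4 s, sum_comm, smul_sum]
      refine sum_congr rfl fun t _ => ?_
      rw [← sum_smul, smul_smul]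
      congr 1
      exact congrFun h3 t
    have hex : ∃ p, ∃ v ∈ H p, v ᵥ* Y ≠ 0 := by
      by_contra hcon
      push Not at hcon
      apply hY0
      refine vec_ext H htop _ _ fun p v hv => ?_
      rw [hcon p v hv, Matrix.vecMul_zero]
    obtain ⟨p, v, hv, hvY⟩ := hex
    have h5 : (v ᵥ* Y) ᵥ* Φ = ((p : ℂ) + z) • (v ᵥ* Y) := by
      have h6 : Y * Φ = Φ * Y + z • Y := by
        rw [← hYΦ]
        abel
      rw [Matrix.vecMul_vecMul, h6, Matrix.vecMul_add, ← Matrix.vecMul_vecMul, hH p v hv, Matrix.smul_vecMul,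
        Matrix.vecMul_smul, add_smul]
    obtain ⟨n, hn⟩ := eig_int Φ H htop hH _ _ hvY h5
    refine ⟨n - p, ?_⟩
    push_cast
    rw [← hn]
    ring
  have htr2 : c.trace.im = 0 := by
    rw [Matrix.trace_eq_sum_roots_charpoly]
    have h1 : ∀ s : Multiset ℂ, (∀ z ∈ s, ∃ n : ℤ, z = n) → s.sum.im = 0 := by
      intro s
      induction s using Multiset.induction with
      | empty =>
        intro _
        simp
      | cons a s ih =>
        intro h
        obtain ⟨n, hn⟩ := h a (Multiset.mem_cons_self a s)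
        rw [Multiset.sum_cons, Complex.add_im, ih fun z hz => h z (Multiset.mem_cons_of_mem hz), hn, Complex.intCast_im,
          add_zero]
    exact h1 _ heig
  have htr3 : c.trace.re = 0 := by
    have h1 := congrArg Complex.re htr1
    rw [Complex.conj_re, Complex.neg_re] at h1
    linarith
  exact Complex.ext htr3 htr2

theorem grd : S_Grd := by
  intro I _ _ lev Z Φ H hZ hF hH
  set T : Matrix I I ℂ := Z * Φ * Z⁻¹ with hT
  have hTZ : T * Z = Z * Φ := by
    rw [hT, Matrix.mul_assoc, Matrix.nonsing_inv_mul _ hZ, Matrix.mul_one]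
  -- the filtration
  set F : ℤ → Submodule ℂ (I → ℂ) := fun p => Submodule.span ℂ {v | ∃ a, p ≤ lev a ∧ v = Z a} with hFd
  have hFst : ∀ p, ∀ v ∈ F p, v ᵥ* Φ ∈ F p := by
    intro p v hv
    have h1 : F p = ⨆ q : {q : ℤ // p ≤ q}, H q := (hF p).symm
    rw [h1] at hv ⊢
    refine Submodule.iSup_induction (fun q : {q : ℤ // p ≤ q} => H q)
      (motive := fun v => v ᵥ* Φ ∈ ⨆ q : {q : ℤ // p ≤ q}, H q) hv ?_ ?_ ?_
    · intro q x hx
      rw [hH q x hx]
      exact Submodule.smul_mem _ _ (Submodule.mem_iSup_of_mem q hx)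
    · rw [Matrix.zero_vecMul]
      exact Submodule.zero_mem _
    · intro x y hx hy
      rw [Matrix.add_vecMul]
      exact Submodule.add_mem _ hx hy
  have hsplit : ∀ p, ∀ v ∈ F p, ∃ h ∈ H p, ∃ f ∈ F (p + 1), v = h + f := by
    intro p v hv
    have h1 : F p = ⨆ q : {q : ℤ // p ≤ q}, H q := (hF p).symm
    have h2 : F (p + 1) = ⨆ q : {q : ℤ // p + 1 ≤ q}, H q := (hF (p + 1)).symm
    have h3 : F p ≤ H p ⊔ F (p + 1) := by
      rw [h1]
      refine iSup_le fun q => ?_
      rcases eq_or_lt_of_le q.2 with h4 | h4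
      · rw [← h4]
        exact le_sup_left
      · refine le_trans ?_ le_sup_right
        rw [h2]
        exact le_iSup (fun q : {q : ℤ // p + 1 ≤ q} => H q) ⟨q.1, h4⟩
    obtain ⟨h, hh, f, hf, hhf⟩ := Submodule.mem_sup.1 (h3 hv)
    exact ⟨h, hh, f, hf, hhf.symm⟩
  -- the coordinates of the elements of the filtration
  have hcoord : ∀ p, ∀ v ∈ F p, ∀ b, lev b < p → (v ᵥ* Z⁻¹) b = 0 := by
    intro p v hv b hb
    induction hv using Submodule.span_induction with
    | mem x hx =>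
      obtain ⟨a, ha, rfl⟩ := hx
      have h1 : (Z a) ᵥ* Z⁻¹ = (1 : Matrix I I ℂ) a := by
        rw [← Matrix.mul_nonsing_inv _ hZ]
        rfl
      rw [h1, Matrix.one_apply_ne]
      rintro rfl
      omega
    | zero => rw [Matrix.zero_vecMul, Pi.zero_apply]
    | add x y _ _ hx hy => rw [Matrix.add_vecMul, Pi.add_apply, hx, hy, add_zero]
    | smul c x _ hx => rw [Matrix.smul_vecMul, Pi.smul_apply, hx, smul_zero]
  intro a b hab
  have h1 : T a b = ((Z a) ᵥ* Φ ᵥ* Z⁻¹) b := by
    rw [hT]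
    have : (Z * Φ * Z⁻¹) a = (Z * Φ) a ᵥ* Z⁻¹ := rfl
    rw [this]
    rfl
  have hZa : Z a ∈ F (lev a) := Submodule.subset_span ⟨a, le_rfl, rfl⟩
  obtain ⟨h, hh, f, hf, hhf⟩ := hsplit (lev a) _ hZa
  have h2 : (Z a) ᵥ* Φ = ((lev a : ℤ) : ℂ) • Z a + (f ᵥ* Φ - ((lev a : ℤ) : ℂ) • f) := by
    rw [hhf, Matrix.add_vecMul, hH _ h hh, smul_add]
    abel
  have h3 : f ᵥ* Φ - ((lev a : ℤ) : ℂ) • f ∈ F (lev a + 1) :=
    Submodule.sub_mem _ (hFst _ f hf) (Submodule.smul_mem _ _ hf)
  rw [h1, h2, Matrix.add_vecMul, Pi.add_apply, hcoord _ _ h3 b (by omega), add_zero, Matrix.smul_vecMul,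
    Pi.smul_apply, smul_eq_mul]
  have h4 : (Z a) ᵥ* Z⁻¹ = (1 : Matrix I I ℂ) a := by
    rw [← Matrix.mul_nonsing_inv _ hZ]
    rfl
  rw [h4, Matrix.one_apply]
  split_ifs <;> simp

end Pool.Agent.Q198.HG
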